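import Pool.Agent.Y146.PZ.Sep
import Pool.Agent.Y146.PZ.Three

/-!
# Every alternating `n`-ary algebra of dimension at most `n + 1` lies in some `A⁻`

Pozhidaev's conjecture concerns the simple `n`-Lie algebra `L_{n+1}` (dimension `n + 1`) over an
algebraically closed field of characteristic zero.  We show that no identity, no simplicity, no
parity of `n` and no hypothesis on the field is needed: for `n ≥ 3` *every* alternating `n`-ary
algebra of dimension at most `n + 1` over *every* field embeds in `A⁻` for an associative algebra
`A`.  The class of these algebras contains all algebras with zero bracket, is closed under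
arbitrary products, and contains every algebra whose derived algebra is separated by homomorphisms
to algebras of the class over extension fields; so the full conjecture for reductive `n`-Lie
algebras holds in every characteristic.

Idea.  The relations `alt(y_0, …, ŷ_j, …, y_n) = r_j` with arbitrary linear `r_j` imply the
quadratic relation `∑ T_jk y_j y_k = 0` with `T = S - (-1)^n Sᵀ`, where `S` is the structure
matrix.  Over the algebraic closure the basis of the algebra can be chosen so that `T = 0`, or that
the leading word of the quadratic relation is `y_n y_0`, or (rank one, `n ≥ 4`) `y_2 y_2`; in all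
these cases the diamond lemma applies.  For `n = 3` and `T` of rank one there is a normal form
with three parameters, and explicit operators on sequences `ℤ → K`.
-/

set_option autoImplicit false

namespace Pool.Agent.Results.MP_2df8e9_al.EveryAlternatingAlgebra

open Module

universe u v

/-- The `n`-ary bracket of `A⁻`: the alternating sum
`[a_1, …, a_n] = ∑ σ, sgn σ • a_(σ 1) a_(σ 2) ⋯ a_(σ n)` over all permutations. -/
def minusBracket {A : Type*} [Ring A] {n : ℕ} (a : Fin n → A) : A :=
  ∑ σ : Equiv.Perm (Fin n), ((Equiv.Perm.sign σ : ℤˣ) : ℤ) • (List.ofFn fun k => a (σ k)).prod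

/-- The alternating `n`-ary algebra `L` with bracket `B` is isomorphic to a subalgebra of `A⁻`
for some associative `F`-algebra `A` (with unit). -/
def EmbedsInMinus {F : Type u} [Field F] {n : ℕ} {L : Type v} [AddCommGroup L] [Module F L]
    (B : L [⋀^Fin n]→ₗ[F] L) : Prop :=
  ∃ (A : Type (max u v)) (_ : Ring A) (_ : Algebra F A) (j : L →ₗ[F] A),
    Function.Injective j ∧ ∀ v : Fin n → L, j (B v) = minusBracket (fun k => j (v k))

/-- `B` is the bracket of `L_{n+1}` with respect to the basis `e`: it is an alternating
`n`-linear map with `[e_1, …, ê_i, …, e_{n+1}] = (-1)^(n+i+1) e_i` (here the index `i : Fin (n+1)`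
starts at `0`, so it stands for `i + 1` in the usual numbering). -/
def IsFilippov {F : Type u} [Field F] {L : Type v} [AddCommGroup L] [Module F L] {n : ℕ}
    (e : Basis (Fin (n + 1)) F L) (B : L [⋀^Fin n]→ₗ[F] L) : Prop :=
  ∀ i : Fin (n + 1), B (fun k => e (i.succAbove k)) = (-1 : F) ^ (n + ((i : ℕ) + 1) + 1) • e i

/-- The product of alternating `n`-ary algebras, with the componentwise bracket. -/
def prodBracket {F : Type u} [Field F] {n : ℕ} {I : Type v} {L : I → Type v}
    [∀ i, AddCommGroup (L i)] [∀ i, Module F (L i)] (B : ∀ i, L i [⋀^Fin n]→ₗ[F] L i) :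
    (∀ i, L i) [⋀^Fin n]→ₗ[F] (∀ i, L i) :=
  AlternatingMap.pi fun i => (B i).compLinearMap (LinearMap.proj i)

theorem prodBracket_apply {F : Type u} [Field F] {n : ℕ} {I : Type v} {L : I → Type v}
    [∀ i, AddCommGroup (L i)] [∀ i, Module F (L i)] (B : ∀ i, L i [⋀^Fin n]→ₗ[F] L i)
    (v : Fin n → ∀ i, L i) (i : I) : prodBracket B v i = B i (fun k => v k i) := rfl

/-- The derived algebra of `(L, B)` (the span of the brackets) is separated by homomorphisms `f i`
to algebras `(S i, C i)` over extension fields `K i` of `F` which are subalgebras of algebras `A⁻`: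
zero is the only element of the derived algebra which is killed by all `f i`. -/
def Separated {F : Type u} [Field F] {n : ℕ} {L : Type v} [AddCommGroup L] [Module F L]
    (B : L [⋀^Fin n]→ₗ[F] L) : Prop :=
  ∃ (ι : Type v) (K : ι → Type u) (_ : ∀ i, Field (K i)) (_ : ∀ i, Algebra F (K i))
    (S : ι → Type v) (_ : ∀ i, AddCommGroup (S i)) (_ : ∀ i, Module F (S i))
    (_ : ∀ i, Module (K i) (S i)) (_ : ∀ i, IsScalarTower F (K i) (S i))
    (C : ∀ i, S i [⋀^Fin n]→ₗ[K i] S i) (f : ∀ i, L →ₗ[F] S i),
    (∀ i, EmbedsInMinus (C i)) ∧
    (∀ i (w : Fin n → L), f i (B w) = C i (fun k => f i (w k))) ∧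
    ∀ x ∈ Submodule.span F (Set.range B), (∀ i, f i x = 0) → x = 0

/-- **Main theorem.**  Let `F` be any field and `n ≥ 3`.
(1) Every alternating `n`-ary algebra of dimension at most `n + 1` over `F` is a subalgebra of
`A⁻` for an associative algebra `A`.
(2) In particular this holds for `L_{n+1}`, for `n` odd or even, in every characteristic.
(3) The class of subalgebras of algebras `A⁻` contains the algebras with zero bracket and is
closed under arbitrary products.
(4) It contains every algebra whose derived algebra is separated by homomorphisms to algebras of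
this class over extension fields. -/
theorem result (F : Type u) [Field F] (n : ℕ) (hn : 3 ≤ n) :
    (∀ (L : Type v) [AddCommGroup L] [Module F L] [FiniteDimensional F L]
      (B : L [⋀^Fin n]→ₗ[F] L), finrank F L ≤ n + 1 → EmbedsInMinus B) ∧
    (∀ (L : Type v) [AddCommGroup L] [Module F L] (e : Basis (Fin (n + 1)) F L)
      (B : L [⋀^Fin n]→ₗ[F] L), IsFilippov e B → EmbedsInMinus B) ∧
    (∀ (I : Type v) (L : I → Type v) [∀ i, AddCommGroup (L i)] [∀ i, Module F (L i)]
      (B : ∀ i, L i [⋀^Fin n]→ₗ[F] L i), (∀ i, B i = 0 ∨ EmbedsInMinus (B i)) →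
      EmbedsInMinus (prodBracket B)) ∧
    (∀ (L : Type v) [AddCommGroup L] [Module F L] (B : L [⋀^Fin n]→ₗ[F] L), Separated B →
      EmbedsInMinus B) := by
  have hE : ∀ {L : Type v} [AddCommGroup L] [Module F L] (B : L [⋀^Fin n]→ₗ[F] L),
      Y146.PZ.EmbM B → EmbedsInMinus B := fun B h => h
  refine ⟨?_, ?_, ?_, ?_⟩
  · intro L _ _ _ B hdim
    by_cases hd : finrank F L ≤ n
    · exact hE B (Y146.PZ.embM_small hn B hd)
    have hd' : finrank F L = n + 1 := by omega
    let e : Basis (Fin (n + 1)) F L := finBasisOfFinrankEq F L hd'
    apply hE B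
    apply Y146.PZ.embM_of_emb B
    exact Y146.PZ.embed_every hn e B
  · intro L _ _ e B _
    apply hE B
    apply Y146.PZ.embM_of_emb B
    exact Y146.PZ.embed_every hn e B
  · intro I L _ _ B h
    apply hE
    apply Y146.PZ.embM_pi B
    intro i
    rcases h i with h | h
    · rw [h]
      exact Y146.PZ.embM_zero (by omega) (L i)
    · exact h
  · rintro L _ _ B ⟨ι, K, _, _, S, _, _, _, _, C, f, hC, hf, hs⟩
    exact hE B (Y146.PZ.embM_sep (by omega) B K S C f hC hf hs)

end Pool.Agent.Results.MP_2df8e9_al.EveryAlternatingAlgebra
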